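import Pool.Agent.H987.Y.StA

/-! Project Y of helper987, K6: separating phases and potentials. -/

set_option autoImplicit false

open scoped BigOperators InnerProductSpace Topology
open Filter MeasureTheory

namespace Pool.Agent.H796.Y987

open Pool.Agent.H987.Y

/-- the product of two infinite product measures, zipped -/
lemma zip_infinitePi {ι A B : Type} [MeasurableSpace A] [MeasurableSpace B] (α : Measure A)
    (β : Measure B) [IsProbabilityMeasure α] [IsProbabilityMeasure β] :
    ((Measure.infinitePi fun _ : ι => α).prod (Measure.infinitePi fun _ : ι => β)).map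
      (fun q => fun l : ι => (q.1 l, q.2 l)) = Measure.infinitePi fun _ : ι => α.prod β := by
  have hF : Measurable (fun q : (ι → A) × (ι → B) => fun l : ι => (q.1 l, q.2 l)) := by fun_prop
  refine (Measure.isProjectiveLimit_infinitePi (fun _ : ι => α.prod β)).unique ?_ |>.symm
  intro I
  rw [Measure.map_map (by fun_prop) hF]
  have e1 : (I.restrict ∘ fun q : (ι → A) × (ι → B) => fun l : ι => (q.1 l, q.2 l))
      = (MeasurableEquiv.arrowProdEquivProdArrow A B I).symm ∘ Prod.map I.restrict I.restrict := by
    funext q
    rfl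
  rw [e1, ← Measure.map_map (by fun_prop) (by fun_prop), ← Measure.map_prod_map _ _ (by fun_prop)
    (by fun_prop), Measure.infinitePi_map_restrict, Measure.infinitePi_map_restrict]
  exact ((measurePreserving_arrowProdEquivProdArrow A B I (fun _ => α) (fun _ => β)).symm).map_eq

lemma unif_prob (C : Type) [Fintype C] [Nonempty C] [MeasurableSpace C] :
    IsProbabilityMeasure (unif C) := by
  constructor
  unfold unif
  rw [Measure.smul_apply, Measure.count_univ, smul_eq_mul]
  simp
  apply ENNReal.inv_mul_cancel
  · simp
  · simp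

theorem sep : Pool.Agent.H987.Y.S_sep := by
  intro d N n ν hν hN
  have : Nonempty (Fin N) := ⟨⟨0, hN⟩⟩
  have h1 : IsProbabilityMeasure (unif (Ph d N)) := unif_prob (Ph d N)
  have h2 : IsProbabilityMeasure (PO d N ν) := by unfold PO; infer_instance
  have hm : Measurable fun q : (List (Ix (Lt d) n) → Ph d N) × (Vt (Lt d) n → ℝ) =>
      fun l : List (Ix (Lt d) n) => ((q.1 l, fun x => q.2 (l, x)) : Om d N) := by
    refine measurable_pi_iff.2 fun l => Measurable.prodMk ?_ ?_
    · exact (measurable_pi_apply l).comp measurable_fst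
    · exact measurable_pi_iff.2 fun x => (measurable_pi_apply (l, x)).comp measurable_snd
  refine ⟨h1, h2, hm, ?_⟩
  have e1 : (fun q : (List (Ix (Lt d) n) → Ph d N) × (Vt (Lt d) n → ℝ) =>
      fun l : List (Ix (Lt d) n) => ((q.1 l, fun x => q.2 (l, x)) : Om d N))
      = (fun q : (List (Ix (Lt d) n) → Ph d N) × (List (Ix (Lt d) n) → Lt d → ℝ) =>
          fun l : List (Ix (Lt d) n) => (q.1 l, q.2 l))
        ∘ Prod.map id (MeasurableEquiv.curry (List (Ix (Lt d) n)) (Lt d) ℝ) := by
    funext q
    rfl
  rw [e1, ← Measure.map_map (by fun_prop) (by fun_prop), ← Measure.map_prod_map _ _ (by fun_prop)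
    (by fun_prop), Measure.map_id,
    Measure.infinitePi_map_curry (fun (_ : List (Ix (Lt d) n)) (_ : Lt d) => ν), zip_infinitePi]
  rfl

end Pool.Agent.H796.Y987
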